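import Pool.Agent.N662.FP.Stm

/-!
# Project FL, leaf FAT: the mean passage time is at least the time constant
-/

set_option autoImplicit false

open MeasureTheory ProbabilityTheory Filter Set
open scoped ENNReal Topology

namespace Pool.Agent.N881.FL

open Pool.Agent.N662.FP

theorem t_FAT (h1 : S_INT) (h2 : S_TI) (h3 : S_SUB) (h4 : S_AE) (h5 : S_GE) : S_FAT := by
  intro Ω _ _ X hX v m hm
  have hae := h4 Ω X hX
  have hnn : ∀ n : ℕ, ∀ᵐ ω ∂(volume : Measure Ω), 0 ≤ D (env X ω) 0 ((n : ℤ) • v) / (n : ℝ) := by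
    intro n
    filter_upwards [hae] with ω hω
    exact div_nonneg (h5 _ hω _ _).2.2.1 (Nat.cast_nonneg _)
  have hint : ∀ n : ℕ, Integrable (fun ω => D (env X ω) 0 ((n : ℤ) • v) / (n : ℝ))
      (volume : Measure Ω) := fun n => (h1 Ω X hX _ _).div_const _
  have hI0 : 0 ≤ ∫ ω, D (env X ω) 0 v ∂(volume : Measure Ω) := by
    refine integral_nonneg_of_ae ?_
    filter_upwards [hae] with ω hω
    exact (h5 _ hω _ _).2.2.1
  have hle : ∀ n : ℕ, 1 ≤ n → ∫ ω, D (env X ω) 0 ((n : ℤ) • v) / (n : ℝ) ∂(volume : Measure Ω) ≤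
      ∫ ω, D (env X ω) 0 v ∂(volume : Measure Ω) := by
    intro n hn
    have hn0 : (0 : ℝ) < n := by exact_mod_cast hn
    rw [integral_div, div_le_iff₀ hn0]
    have a1 : ∫ ω, D (env X ω) 0 ((n : ℤ) • v) ∂(volume : Measure Ω) ≤
        ∫ ω, ∑ k ∈ Finset.range n, D (env X ω) ((k : ℤ) • v) ((k : ℤ) • v + v)
          ∂(volume : Measure Ω) := by
      refine integral_mono_ae (h1 Ω X hX _ _) (integrable_finsetSum _ fun k _ => h1 Ω X hX _ _) ?_
      filter_upwards [hae] with ω hω
      exact h3 _ hω v n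
    refine a1.trans (le_of_eq ?_)
    rw [integral_finsetSum _ fun k _ => h1 Ω X hX _ _]
    have a2 : ∀ k ∈ Finset.range n, ∫ ω, D (env X ω) ((k : ℤ) • v) ((k : ℤ) • v + v)
        ∂(volume : Measure Ω) = ∫ ω, D (env X ω) 0 v ∂(volume : Measure Ω) :=
      fun k _ => h2 Ω X hX ((k : ℤ) • v) v
    rw [Finset.sum_congr rfl a2, Finset.sum_const, Finset.card_range, nsmul_eq_mul, mul_comm]
  have key : ENNReal.ofReal m ≤ ENNReal.ofReal (∫ ω, D (env X ω) 0 v ∂(volume : Measure Ω)) := by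
    have b1 : ENNReal.ofReal m = ∫⁻ ω, liminf (fun n : ℕ =>
        ENNReal.ofReal (D (env X ω) 0 ((n : ℤ) • v) / (n : ℝ))) atTop ∂(volume : Measure Ω) := by
      have : ∫⁻ _ω, ENNReal.ofReal m ∂(volume : Measure Ω) = ENNReal.ofReal m := by
        rw [lintegral_const, measure_univ, mul_one]
      rw [← this]
      refine lintegral_congr_ae ?_
      filter_upwards [hm] with ω hω
      exact ((ENNReal.tendsto_ofReal hω).liminf_eq).symm
    rw [b1]
    refine (lintegral_liminf_le' fun n => (hint n).aemeasurable.ennreal_ofReal).trans ?_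
    refine liminf_le_of_frequently_le' (Eventually.frequently ?_)
    filter_upwards [eventually_ge_atTop 1] with n hn
    rw [← ofReal_integral_eq_lintegral_ofReal (hint n) (hnn n)]
    exact ENNReal.ofReal_le_ofReal (hle n hn)
  exact (ENNReal.ofReal_le_ofReal_iff hI0).mp key

end Pool.Agent.N881.FL
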